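import Pool.Agent.Helper78.Avg.CAMain

open Pool.Agent.Helper65.LinSpace

namespace Pool.Agent.Results.MP_c578c8_lc.CellularAutomataAverage

/-- **A language in linear space which is hard on average for fast cellular automata with advice.**
There are a language `L` in `DSPACE(n)` and masks `s n` of length `n` such that `L` consists of the
words `w` whose inner product with the mask `s |w|` is odd, and the following holds for every
cellular automaton of any dimension `d ≥ 1` and every `C`. There is a `c` such that for `M = L` and
for `M` the complement of `L`, for all `n` and all advice words `α`, the number of the words `w` of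
length `n` on which the automaton is correct is at most
`2^n / 2 + c (min (|α|, n - |α|) + 1) 2^((n + |α|) / 2)`. Here the second input is `α` followed by
a guess, and the automaton is correct on `w` if it accepts `w` for no guess at no time unless `w` is
in `M`, and if `w` is in `M` it accepts `w` for some guess of length at most `n` within
`C n^(1 + 1/d) / log^3 n` steps. -/
theorem result : ∃ (L : Set (List Bool)) (s : ℕ → List Bool), DLINSPACE L ∧
    (∀ n, (s n).length = n) ∧
    (∀ w, w ∈ L ↔ Odd ((List.zipWith and (s w.length) w).count true)) ∧
    ∀ (d : ℕ) [NeZero d] (A : CA d) (C : ℝ), ∃ c : ℝ, ∀ (n : ℕ) (α : List Bool),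
      ∀ M, M = L ∨ M = Lᶜ →
        ({w : List Bool | w.length = n ∧
          (∀ v t, A.config w (α ++ v) t 0 ∈ A.accept → w ∈ M) ∧
          (w ∈ M → ∃ (v : List Bool) (t : ℕ), v.length ≤ n ∧
            (t : ℝ) ≤ C * ((n : ℝ) + 1) ^ (1 + 1 / (d : ℝ)) / Real.log ((n : ℝ) + 2) ^ 3 ∧
            A.config w (α ++ v) t 0 ∈ A.accept)}.ncard : ℝ) ≤
        2 ^ n / 2 +
          c * ((min α.length (n - α.length) : ℕ) + 1) * 2 ^ (((n : ℝ) + α.length) / 2) :=
  Pool.Agent.Helper78.Avg.ca_main

end Pool.Agent.Results.MP_c578c8_lc.CellularAutomataAverage
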